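import Pool.Agent.R900.FG.Main

/-!
# Alterations, and the class of schemes for which the finite generation is known
-/

set_option autoImplicit false

namespace Pool.Agent.R900.FG

variable {S : Type}

/-- Q1 for `Y` in the weight `n`: `H^i(Y_et, ℤ^c(n))` is finitely generated for `i ≤ -2 n + 1`. -/
def Q1 (T : Cohomology S) (n : ℤ) (Y : S) : Prop := ∀ i ≤ -2 * n + 1, AddGroup.FG (T.H n i Y)

/-- `Regular` is the class of regular proper schemes. For these the finite generation in the degrees
`i ≤ -2 n + 1` implies the one in all degrees (known, by duality). `Nice` is a class of regular proper schemes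
with the theorem of de Jong: each nonempty arithmetic scheme `X` has a nonempty open subscheme `U` with a
finite covering `U'` which is an open subscheme of a nice scheme `Y` of dimension at most the one of
`X`, with a complement `T'` which is empty or of smaller dimension. For example: all regular projective schemes; or the
smooth projective varieties over finite fields together with the regular projective schemes with
strictly semistable reduction over the rings of integers of number fields. -/
structure HasAlterations (G : Schemes S) (T : Cohomology S) (Regular Nice : S → Prop) : Prop where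
  nice : ∀ Y, Nice Y → Regular Y
  alter : ∀ X, ¬ G.Empty X → ∃ Z U U' Y T', G.Cut Z X U ∧ ¬ G.Empty U ∧ G.Cover U' U ∧
    G.Cut T' Y U' ∧ Nice Y ∧ G.dim Y ≤ G.dim X ∧ (G.Empty T' ∨ G.dim T' < G.dim X)
  dual : ∀ n < 0, ∀ Y, Regular Y → Q1 T n Y → FiniteIn T n Y

/-- For every `n < 0` and `d`: the finite generation in the weight `n` for all arithmetic schemes of
dimension at most `d` is equivalent to Q1 for the nice schemes of dimension at most `d`. -/
def NiceSuffice (G : Schemes S) (T : Cohomology S) (Nice : S → Prop) : Prop :=
  ∀ n < 0, ∀ d, (∀ X, G.dim X ≤ d → FiniteIn T n X) ↔ ∀ Y, Nice Y → G.dim Y ≤ d → Q1 T n Y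

theorem niceSuffice {G : Schemes S} {T : Cohomology S} {Regular Nice : S → Prop} (hG : IsSchemes G)
    (hT : IsCohomology G T) (hA : HasAlterations G T Regular Nice) : NiceSuffice G T Nice := by
  intro n hn d
  refine ⟨fun h Y _ hd i _ => h Y hd i, fun h => ?_⟩
  suffices hk : ∀ k, ∀ X, G.dim X < k → G.dim X ≤ d → FiniteIn T n X from
    fun X hX => hk (G.dim X + 1) X (Nat.lt_succ_self _) hX
  intro k
  induction k with
  | zero => exact fun X hX => absurd hX (Nat.not_lt_zero _)
  | succ k ih =>
    intro X
    induction X using hG.noeth.induction with
    | _ X ihX =>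
      intro hX hXd
      by_cases hE : G.Empty X
      · intro i
        have := hT.empty n i X hE
        infer_instance
      · obtain ⟨Z, U, U', Y, T', hcut, hU, hcov, hcut', hY, hYd, hT'⟩ := hA.alter X hE
        have hZ := hG.dim_le Z X U hcut
        refine finite_mid hT hcut hn (ihX Z ⟨U, hcut, hU⟩ (by omega) (by omega))
          (finite_cover hT hcov hn (finite_open hT hcut' hn ?_
            (hA.dual n hn Y (hA.nice Y hY) (h Y hY (by omega)))))
        rcases hT' with hT' | hT'
        · intro i
          have := hT.empty n i T' hT'
          infer_instance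
        · exact ih T' (by omega) (by omega)

/-- For every `n < 0` the following are equivalent: Q1 for all regular proper schemes; Q1 for all nice
schemes; finite generation in all degrees for all arithmetic schemes; finite generation for the
Jacobians of curves. -/
def FourConditions (G : Schemes S) (T : Cohomology S) (Regular Nice : S → Prop) : Prop :=
  ∀ n < 0, [∀ Y, Regular Y → Q1 T n Y, ∀ Y, Nice Y → Q1 T n Y, ∀ X, FiniteIn T n X,
    ∀ J, Jacobian G J → FiniteIn T n J].TFAE

theorem fourConditions {G : Schemes S} {T : Cohomology S} {Regular Nice : S → Prop}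
    (hG : IsSchemes G) (hT : IsCohomology G T) (hA : HasAlterations G T Regular Nice) :
    FourConditions G T Regular Nice := by
  intro n hn
  tfae_have 1 → 2 := fun h Y hY => h Y (hA.nice Y hY)
  tfae_have 2 → 3 := fun h X =>
    (niceSuffice hG hT hA n hn (G.dim X)).2 (fun Y hY _ => h Y hY) X le_rfl
  tfae_have 3 → 1 := fun h Y _ i _ => h Y i
  tfae_have 3 ↔ 4 := oneWeight hG hT n hn
  tfae_finish

end Pool.Agent.R900.FG
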