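import Mathlib

/-!
# Arithmetic schemes, curves with their Jacobians, and the groups `H^i(X_et, ℤ^c(n))`
-/

set_option autoImplicit false

namespace Pool.Agent.R900.FG

/-- Data: arithmetic schemes (separated and of finite type over `ℤ`; we only consider reduced ones, as the
groups depend only on the reduced subscheme).

* `dim`: the Krull dimension (`0` for the empty scheme);
* `Cut Z X U`: `Z` is a closed subscheme of `X` and `U` is its open complement;
* `Cover U' U`: there is a finite surjective morphism `U' → U`, and `U`, `U'` are regular and connected;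
* `Point U`: `U` is the spectrum of a finite field or of a ring `O_F[1 / m]`, `F` a number field;
* `Curve g N C V P J`: `C → V` is a smooth projective curve with geometrically connected fibres of genus
  `g` and with a section, `V` is regular, affine and connected, `J → V` is its Jacobian, `2 g ≤ N + 1`, `1 ≤ N`
  and `P` is the `N`-th symmetric power of `C` over `V`;
* `line X` is the affine line over `X`. -/
structure Schemes (S : Type) where
  dim : S → ℕ
  Empty : S → Prop
  Cut : S → S → S → Prop
  Cover : S → S → Prop
  Point : S → Prop
  Curve : ℕ → ℕ → S → S → S → S → Prop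
  line : S → S

/-- `J` is the Jacobian of a curve over a base of dimension less than `d`. -/
def JacobianBelow {S : Type} (G : Schemes S) (d : ℕ) (J : S) : Prop :=
  ∃ g N C V P, G.Curve g N C V P J ∧ G.dim V < d

/-- `J` is the Jacobian of a curve. -/
def Jacobian {S : Type} (G : Schemes S) (J : S) : Prop := ∃ g N C V P, G.Curve g N C V P J

/-- `U` has a finite covering `U'` that is an open subscheme of a smooth projective curve `C → V` with a
section, with a complement `T`; the dimensions of `V` and `T` are less than `d`. -/
def IsFibred {S : Type} (G : Schemes S) (d : ℕ) (U : S) : Prop :=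
  ∃ U' T C V P J g N, G.Cover U' U ∧ G.Cut T C U' ∧ G.Curve g N C V P J ∧ G.dim T < d ∧ G.dim V < d

/-- The facts on schemes which are used.

`noeth`: schemes are noetherian (induction on closed subsets). `generic`: every nonempty arithmetic scheme
`X` has a nonempty open subscheme `U`, with a complement `Z`, which is a `Point` or fibred in curves as in
`IsFibred`. (The function field `K` of a component of `X` is the function field of a curve over a subfield
`L`; after finite extensions of `K` and `L` the curve is smooth with a rational point; spread out.) `line`: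
base change to the affine line over `V`. -/
structure IsSchemes {S : Type} (G : Schemes S) : Prop where
  noeth : WellFounded fun Z X => ∃ U, G.Cut Z X U ∧ ¬ G.Empty U
  dim_le : ∀ Z X U, G.Cut Z X U → G.dim Z ≤ G.dim X
  generic : ∀ X, ¬ G.Empty X → ∃ Z U, G.Cut Z X U ∧ ¬ G.Empty U ∧
    (G.Point U ∨ IsFibred G (G.dim X) U)
  line : ∀ g N C V P J, G.Curve g N C V P J →
    G.Curve g N (G.line C) (G.line V) (G.line P) (G.line J)

/-- Data: the groups `H n i X = H^i(X_et, ℤ^c(n))`. -/
structure Cohomology (S : Type) where
  H : ℤ → ℤ → S → Type
  [group : ∀ n i X, AddCommGroup (H n i X)]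

attribute [instance] Cohomology.group

/-- The localization sequence of the weight `n` for a closed subscheme `Z` of `X` with the complement `U`. -/
def HasSequence {S : Type} (T : Cohomology S) (n : ℤ) (Z X U : S) : Prop :=
  ∃ (a : ∀ i, T.H n i Z →+ T.H n i X) (b : ∀ i, T.H n i X →+ T.H n i U)
    (c : ∀ i, T.H n i U →+ T.H n (i + 1) Z), ∀ i,
      Function.Exact (a i) (b i) ∧ Function.Exact (b i) (c i) ∧ Function.Exact (c i) (a (i + 1))

/-- Homomorphisms `u` (inverse image) and `v` (direct image) for a finite covering `U' → U` of degree `m`,
with `v ∘ u = m`. -/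
def HasTransfer {S : Type} (T : Cohomology S) (m : ℕ) (n i : ℤ) (U' U : S) : Prop :=
  ∃ (u : T.H n i U →+ T.H n i U') (v : T.H n i U' →+ T.H n i U), ∀ x, v (u x) = m • x

/-- For a curve `C → V` with section `s` let `iota` and `rho` be given by the closed immersion
`x ↦ x + (N - 1) s` into `P = Sym^N C` and by the correspondence of all `(D, x)`, `x` in `D`, and let
`pi`, `sigma` be the direct images for `C → V` and `s`; then `rho ∘ iota = 1 + (N - 1) sigma ∘ pi`. -/
def CurveFormula {S : Type} (T : Cohomology S) (N : ℕ) (n i : ℤ) (C V P : S) : Prop :=
  ∃ (iota : T.H n i C →+ T.H n i P) (rho : T.H n i P →+ T.H n i C)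
    (pi : T.H n i C →+ T.H n i V) (sigma : T.H n i V →+ T.H n i C),
      ∀ x, rho (iota x) = x + (N - 1) • sigma (pi x)

/-- The projective bundle formula for the projective bundle `P` of a vector bundle of rank `r + 1`
over `J`. -/
def BundleFormula {S : Type} (T : Cohomology S) (r : ℕ) (n i : ℤ) (P J : S) : Prop :=
  Nonempty (T.H n i P ≃+ ∀ k : Fin (r + 1), T.H (n - k) (i + 2 * k) J)

/-- The properties of these groups in the weights `n < 0` that are used (all known).

`loc`: localization sequences. `cover`: for a finite covering `f` of degree `m` of regular schemes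
`f_* f^* = m`. `torsion`: the subgroups of elements of order dividing `m` are finite (quotients of the
finite groups `H^(i - 1)(X_et, ℤ / m^c(n))`). `point`: finite generation for finite fields and for
`O_F[1 / m]`. `line`: the formula for the affine line. `curve`, `bundle`: see `CurveFormula`; `P` is the
projective bundle of a vector bundle of rank `N - g + 1` over `J`. -/
structure IsCohomology {S : Type} (G : Schemes S) (T : Cohomology S) : Prop where
  empty : ∀ n i X, G.Empty X → Subsingleton (T.H n i X)
  loc : ∀ Z X U, G.Cut Z X U → ∀ n < 0, HasSequence T n Z X U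
  cover : ∀ U' U, G.Cover U' U → ∃ m : ℕ, 0 < m ∧ ∀ n < 0, ∀ i, HasTransfer T m n i U' U
  torsion : ∀ n < 0, ∀ i X, ∀ m : ℕ, 0 < m → {x : T.H n i X | m • x = 0}.Finite
  point : ∀ n < 0, ∀ i X, G.Point X → AddGroup.FG (T.H n i X)
  line : ∀ n < 0, ∀ i X, Nonempty (T.H n i (G.line X) ≃+ T.H (n - 1) (i + 2) X)
  curve : ∀ g N C V P J, G.Curve g N C V P J → ∀ n < 0, ∀ i, CurveFormula T N n i C V P
  bundle : ∀ g N C V P J, G.Curve g N C V P J → ∀ n < 0, ∀ i, BundleFormula T (N - g) n i P J

/-- All the groups of `X` of the weight `n` are finitely generated. -/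
def FiniteIn {S : Type} (T : Cohomology S) (n : ℤ) (X : S) : Prop := ∀ i, AddGroup.FG (T.H n i X)

/-- For every weight `n < 0`: the groups of the weight `n` are finitely generated for all arithmetic schemes
if and only if they are so for all Jacobians of curves. -/
def OneWeight {S : Type} (G : Schemes S) (T : Cohomology S) : Prop :=
  ∀ n < 0, (∀ X, FiniteIn T n X) ↔ ∀ J, Jacobian G J → FiniteIn T n J

/-- Let `n < 0`. If the groups of the weights `m ≤ n` are finitely generated for all Jacobians over bases of dimension
less than `d` then they are so for all arithmetic schemes of dimension at most `d`. -/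
def Bounded {S : Type} (G : Schemes S) (T : Cohomology S) : Prop :=
  ∀ n < 0, ∀ d, (∀ J, JacobianBelow G d J → ∀ m ≤ n, FiniteIn T m J) →
    ∀ X, G.dim X ≤ d → ∀ m ≤ n, FiniteIn T m X

end Pool.Agent.R900.FG
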