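import Pool.Agent.R900.FG.Defs

/-! # Reduction of the finite generation to Jacobians -/

set_option autoImplicit false

namespace Pool.Agent.R900.FG

section Groups

variable {A B C : Type} [AddCommGroup A] [AddCommGroup B] [AddCommGroup C]

lemma fg_of_surjective (hA : AddGroup.FG A) (f : A →+ B) (hf : Function.Surjective f) :
    AddGroup.FG B := by
  rw [← Module.Finite.iff_addGroup_fg] at hA ⊢
  exact Module.Finite.of_surjective f.toIntLinearMap hf

lemma fg_of_injective (hB : AddGroup.FG B) (f : A →+ B) (hf : Function.Injective f) :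
    AddGroup.FG A := by
  rw [← Module.Finite.iff_addGroup_fg] at hB ⊢
  exact Module.Finite.of_injective f.toIntLinearMap hf

lemma fg_of_ker (hC : AddGroup.FG C) (g : B →+ C) (hk : AddGroup.FG g.ker) : AddGroup.FG B := by
  rw [← Module.Finite.iff_addGroup_fg] at hC hk ⊢
  have h1 : Module.Finite ℤ (LinearMap.ker g.toIntLinearMap) := by
    let e : g.ker →ₗ[ℤ] LinearMap.ker g.toIntLinearMap :=
      { toFun := fun x => ⟨x.1, x.2⟩
        map_add' := fun _ _ => rfl
        map_smul' := fun _ _ => rfl }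
    exact Module.Finite.of_surjective e fun x => ⟨⟨x.1, x.2⟩, rfl⟩
  have h2 : Module.Finite ℤ (B ⧸ LinearMap.ker g.toIntLinearMap) :=
    Module.Finite.equiv g.toIntLinearMap.quotKerEquivRange.symm
  exact Module.Finite.of_submodule_quotient (LinearMap.ker g.toIntLinearMap)

lemma fg_of_exact (hA : AddGroup.FG A) (hC : AddGroup.FG C) (f : A →+ B) (g : B →+ C)
    (h : Function.Exact f g) : AddGroup.FG B := by
  refine fg_of_ker hC g ?_
  let f' : A →+ g.ker :=
    { toFun := fun x => ⟨f x, (h (f x)).2 ⟨x, rfl⟩⟩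
      map_zero' := by ext; simp
      map_add' := fun _ _ => by ext; simp }
  refine fg_of_surjective hA f' fun x => ?_
  obtain ⟨y, hy⟩ := (h x.1).1 x.2
  exact ⟨y, Subtype.ext hy⟩

lemma fg_of_cover (hB : AddGroup.FG B) {m : ℕ} (u : A →+ B) (v : B →+ A)
    (h : ∀ x, v (u x) = m • x) (ht : {x : A | m • x = 0}.Finite) : AddGroup.FG A := by
  refine fg_of_ker hB u ?_
  have : Finite u.ker := by
    refine Set.Finite.subset ht fun x hx => ?_
    have hx' : u x = 0 := hx
    show m • x = 0
    rw [← h, hx', map_zero]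
  infer_instance

end Groups

variable {S : Type} {G : Schemes S} {T : Cohomology S}

lemma finite_mid (hT : IsCohomology G T) {Z X U : S} (h : G.Cut Z X U) {n : ℤ} (hn : n < 0)
    (hZ : FiniteIn T n Z) (hU : FiniteIn T n U) : FiniteIn T n X := fun i => by
  obtain ⟨a, b, c, habc⟩ := hT.loc Z X U h n hn
  exact fg_of_exact (hZ i) (hU i) (a i) (b i) (habc i).1

lemma finite_open (hT : IsCohomology G T) {Z X U : S} (h : G.Cut Z X U) {n : ℤ} (hn : n < 0)
    (hZ : FiniteIn T n Z) (hX : FiniteIn T n X) : FiniteIn T n U := fun i => by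
  obtain ⟨a, b, c, habc⟩ := hT.loc Z X U h n hn
  exact fg_of_exact (hX i) (hZ (i + 1)) (b i) (c i) (habc i).2.1

lemma finite_closed (hT : IsCohomology G T) {Z X U : S} (h : G.Cut Z X U) {n : ℤ} (hn : n < 0)
    (hX : FiniteIn T n X) (hU : FiniteIn T n U) : FiniteIn T n Z := fun i => by
  obtain ⟨a, b, c, habc⟩ := hT.loc Z X U h n hn
  have h1 := (habc (i - 1)).2.2
  have h2 : AddGroup.FG (T.H n (i - 1 + 1) Z) :=
    fg_of_exact (hU (i - 1)) (hX (i - 1 + 1)) (c (i - 1)) (a (i - 1 + 1)) h1
  rwa [sub_add_cancel] at h2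

lemma finite_cover (hT : IsCohomology G T) {U' U : S} (h : G.Cover U' U) {n : ℤ} (hn : n < 0)
    (hU : FiniteIn T n U') : FiniteIn T n U := fun i => by
  obtain ⟨m, hm, h'⟩ := hT.cover U' U h
  obtain ⟨u, v, huv⟩ := h' n hn i
  exact fg_of_cover (hU i) u v huv (hT.torsion n hn i U m hm)

lemma finite_curve (hT : IsCohomology G T) {g N : ℕ} {C V P J : S} (h : G.Curve g N C V P J)
    {n : ℤ} (hn : n < 0) (hV : FiniteIn T n V) (hP : FiniteIn T n P) : FiniteIn T n C := fun i => by
  obtain ⟨iota, rho, pi, sigma, hx⟩ := hT.curve g N C V P J h n hn i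
  have h1 := hV i
  have h2 := hP i
  have h3 : AddGroup.FG (T.H n i P × T.H n i V) := by
    rw [← Module.Finite.iff_addGroup_fg] at h1 h2 ⊢
    infer_instance
  refine fg_of_surjective h3 (rho.coprod sigma) fun x =>
    ⟨(iota x, -((N - 1) • pi x)), ?_⟩
  rw [AddMonoidHom.coprod_apply, map_neg, map_nsmul, hx]
  abel

lemma finite_bundle (hT : IsCohomology G T) {g N : ℕ} {C V P J : S} (h : G.Curve g N C V P J)
    {n : ℤ} (hn : n < 0) (hJ : ∀ m ≤ n, FiniteIn T m J) : FiniteIn T n P := fun i => by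
  obtain ⟨e⟩ := hT.bundle g N C V P J h n hn i
  have h3 : AddGroup.FG (∀ k : Fin (N - g + 1), T.H (n - k) (i + 2 * k) J) := by
    rw [← Module.Finite.iff_addGroup_fg]
    have : ∀ k : Fin (N - g + 1), Module.Finite ℤ (T.H (n - k) (i + 2 * k) J) := fun k => by
      rw [Module.Finite.iff_addGroup_fg]
      exact hJ _ (by omega) _
    infer_instance
  exact fg_of_injective h3 e.toAddMonoidHom e.injective

theorem bounded (hG : IsSchemes G) (hT : IsCohomology G T) : Bounded G T := by
  intro n hn d hJ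
  suffices hk : ∀ k, ∀ X, G.dim X < k → G.dim X ≤ d → ∀ m ≤ n, FiniteIn T m X from
    fun X hX => hk (G.dim X + 1) X (Nat.lt_succ_self _) hX
  intro k
  induction k with
  | zero => exact fun X hX => absurd hX (Nat.not_lt_zero _)
  | succ k ih =>
    intro X
    induction X using hG.noeth.induction with
    | _ X ihX =>
      intro hX hXd m hm
      have hm0 : m < 0 := lt_of_le_of_lt hm hn
      by_cases hE : G.Empty X
      · intro i
        have := hT.empty m i X hE
        infer_instance
      · obtain ⟨Z, U, hcut, hU, hgen⟩ := hG.generic X hE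
        have hZ := hG.dim_le Z X U hcut
        refine finite_mid hT hcut hm0 (ihX Z ⟨U, hcut, hU⟩ (by omega) (by omega) m hm) ?_
        rcases hgen with hp | ⟨U', T', C, V, P, J, g, N, hcov, hcut', hcurve, hT', hV⟩
        · exact fun i => hT.point m hm0 i U hp
        · have hJ' : ∀ m' ≤ m, FiniteIn T m' J := fun m' hm' =>
            hJ J ⟨g, N, C, V, P, hcurve, by omega⟩ m' (by omega)
          have hC := finite_curve hT hcurve hm0 (ih V (by omega) (by omega) m hm)
            (finite_bundle hT hcurve hm0 hJ')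
          exact finite_cover hT hcov hm0 (finite_open hT hcut' hm0
            (ih T' (by omega) (by omega) m hm) hC)

theorem oneWeight (hG : IsSchemes G) (hT : IsCohomology G T) : OneWeight G T := by
  intro n hn
  refine ⟨fun h J _ => h J, fun h X => ?_⟩
  have key : ∀ k : ℕ, ∀ J, Jacobian G J → FiniteIn T (n - k) J := by
    intro k
    induction k with
    | zero =>
      intro J hJ
      rw [Nat.cast_zero, sub_zero]
      exact h J hJ
    | succ k ih =>
      rintro J ⟨g, N, C, V, P, hJ⟩ i
      obtain ⟨e⟩ := hT.line (n - k) (by omega) (i - 2) J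
      have h1 := ih (G.line J) ⟨g, N, _, _, _, hG.line g N C V P J hJ⟩ (i - 2)
      have h2 : AddGroup.FG (T.H (n - k - 1) (i - 2 + 2) J) :=
        fg_of_surjective h1 e.toAddMonoidHom e.surjective
      have e1 : n - ((k + 1 : ℕ) : ℤ) = n - k - 1 := by push_cast; ring
      rw [sub_add_cancel] at h2
      rwa [e1]
  refine bounded hG hT n hn (G.dim X) (fun J ⟨g, N, C, V, P, hJ, _⟩ m hm => ?_) X le_rfl n le_rfl
  obtain ⟨k, rfl⟩ : ∃ k : ℕ, m = n - k := ⟨(n - m).toNat, by omega⟩
  exact key k J ⟨g, N, C, V, P, hJ⟩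

end Pool.Agent.R900.FG
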