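import Pool.Agent.R900.FG.Alt

/-!
# Blow-ups of projective spaces over the integers, and the weight of the dimension
-/

set_option autoImplicit false

namespace Pool.Agent.R900.FG

variable {S : Type}

/-- Data: `space N` is the projective space of dimension `N` over `ℤ`, and `BlowUp B' B Z c` says that `B'` is
the blow-up of the regular scheme `B` along the regular connected closed subscheme `Z` of codimension `c`. -/
structure BlowUps (S : Type) where
  space : ℕ → S
  BlowUp : S → S → S → ℕ → Prop

/-- `B` is obtained from a projective space over `ℤ` by finitely many blow-ups along nice schemes. -/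
inductive IsTower (W : BlowUps S) (Nice : S → Prop) : S → Prop
  | space (N : ℕ) : IsTower W Nice (W.space N)
  | blowUp {B' B Z : S} {c : ℕ} : IsTower W Nice B → Nice Z → W.BlowUp B' B Z c →
      IsTower W Nice B'

/-- The blow-up formula in the weight `0` in the degree `i`. -/
def BlowUpFormula (T : Cohomology S) (i : ℤ) (B' B Z : S) (c : ℕ) : Prop :=
  Nonempty (T.H 0 i B' ≃+ T.H 0 i B × ∀ k : Fin (c - 1), T.H (-(k + 1)) (i + 2 * (k + 1)) Z)

/-- The facts that are used (all known). `space`: the groups of the weight `0` of a projective space over `ℤ`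
are finitely generated in the degrees `i ≤ 0`. `embed`: a nice scheme (they are projective over `ℤ`) can be
embedded in projective spaces of large dimension, with large codimension. `top`: in the weights
`n < 0` the groups of the degree `-2 n + 1` of nice schemes are finite. -/
structure HasBlowUps (G : Schemes S) (T : Cohomology S) (W : BlowUps S) (Nice : S → Prop) :
    Prop where
  space : ∀ N, G.dim (W.space N) = N + 1 ∧ ∀ i ≤ 0, AddGroup.FG (T.H 0 i (W.space N))
  blowUp : ∀ B' B Z c, W.BlowUp B' B Z c → G.dim B' = G.dim B ∧ ∀ i, BlowUpFormula T i B' B Z c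
  embed : ∀ Z, Nice Z → ∀ e : ℕ, ∃ N B c, W.BlowUp B (W.space N) Z c ∧ e ≤ N ∧ e < c
  top : ∀ n < 0, ∀ Y, Nice Y → AddGroup.FG (T.H n (-2 * n + 1) Y)

/-- Finite generation in the weight `0`, that is of the groups `H^p(B_et, ℤ(d))`, `d = dim B`, `p = 2 d + i`,
in all degrees `p ≤ 2 d`. -/
def TopWeight (T : Cohomology S) (B : S) : Prop := ∀ i ≤ 0, AddGroup.FG (T.H 0 i B)

/-- The same in the degrees `0 ≤ p ≤ 2 d`. -/
def TopWeightInRange (G : Schemes S) (T : Cohomology S) (B : S) : Prop :=
  ∀ i ≤ 0, -2 * (G.dim B : ℤ) ≤ i → AddGroup.FG (T.H 0 i B)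

/-- The following are equivalent: finite generation of `H^p(B_et, ℤ(dim B))`, `p ≤ 2 dim B`, for all towers
`B`; the same for `0 ≤ p ≤ 2 dim B`; finite generation of the groups of all weights `n < 0` for all
arithmetic schemes; of the weight `-1` for all Jacobians. -/
def TowersAndJacobians (G : Schemes S) (T : Cohomology S) (W : BlowUps S) (Nice : S → Prop) :
    Prop :=
  [∀ B, IsTower W Nice B → TopWeight T B, ∀ B, IsTower W Nice B → TopWeightInRange G T B,
    ∀ X, ∀ n < 0, FiniteIn T n X, ∀ J, Jacobian G J → FiniteIn T (-1) J].TFAE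

lemma fg_of_component {A : Type} [AddCommGroup A] {e : ℕ} {F : Fin e → Type}
    [∀ k, AddCommGroup (F k)] {B : Type} [AddCommGroup B] (f : A ≃+ B × ∀ k, F k)
    (hA : AddGroup.FG A) (k : Fin e) : AddGroup.FG (F k) :=
  fg_of_surjective hA ((Pi.evalAddMonoidHom F k).comp
    ((AddMonoidHom.snd B (∀ k, F k)).comp f.toAddMonoidHom)) fun y => by
      refine ⟨f.symm (0, Pi.single k y), ?_⟩
      simp

/-- From the weight `0` for towers to the weights `n < 0` for nice schemes. -/
lemma q1_of_towers {G : Schemes S} {T : Cohomology S} {W : BlowUps S} {Nice : S → Prop}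
    (hW : HasBlowUps G T W Nice) (h : ∀ B, IsTower W Nice B → TopWeightInRange G T B) :
    ∀ n < 0, ∀ Y, Nice Y → Q1 T n Y := by
  intro n hn Y hY i hi
  rcases eq_or_lt_of_le hi with rfl | hi
  · exact hW.top n hn Y hY
  · obtain ⟨j, rfl⟩ : ∃ j : ℕ, n = -((j : ℤ) + 1) := ⟨(-n - 1).toNat, by omega⟩
    obtain ⟨N, B, c, hB, hN, hc⟩ := hW.embed Y hY (j + 1 + (2 * ((j : ℤ) + 1) - i).toNat)
    obtain ⟨hd, hf⟩ := hW.blowUp B _ Y c hB
    have hN' := (hW.space N).1
    obtain ⟨f⟩ := hf (i - 2 * (j + 1))
    have hfg := h B (.blowUp (.space N) hY hB) (i - 2 * (j + 1)) (by omega) (by omega)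
    have h2 : AddGroup.FG (T.H (-((j : ℤ) + 1)) (i - 2 * (j + 1) + 2 * (j + 1)) Y) :=
      fg_of_component f hfg ⟨j, by omega⟩
    rwa [sub_add_cancel] at h2

/-- From the weights `n < 0` for nice schemes to the weight `0` for towers. -/
lemma towers_of_neg {G : Schemes S} {T : Cohomology S} {W : BlowUps S} {Nice : S → Prop}
    (hW : HasBlowUps G T W Nice) (h : ∀ X, ∀ n < 0, FiniteIn T n X) {B : S}
    (hB : IsTower W Nice B) : TopWeight T B := by
  induction hB with
  | space N => exact (hW.space N).2
  | @blowUp B' B Z c _ hZ hbl ih =>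
    intro i hi
    obtain ⟨f⟩ := (hW.blowUp B' B Z c hbl).2 i
    have h1 := ih i hi
    have h2 : ∀ k : Fin (c - 1), AddGroup.FG (T.H (-(k + 1)) (i + 2 * (k + 1)) Z) := fun k =>
      h Z _ (by omega) _
    have h3 : AddGroup.FG (T.H 0 i B × ∀ k : Fin (c - 1), T.H (-(k + 1)) (i + 2 * (k + 1)) Z) := by
      rw [← Module.Finite.iff_addGroup_fg] at h1 ⊢
      have : ∀ k : Fin (c - 1), Module.Finite ℤ (T.H (-(k + 1)) (i + 2 * (k + 1)) Z) := fun k => by
        rw [Module.Finite.iff_addGroup_fg]
        exact h2 k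
      infer_instance
    exact fg_of_injective h3 f.toAddMonoidHom f.injective

theorem towersAndJacobians {G : Schemes S} {T : Cohomology S} {W : BlowUps S}
    {Regular Nice : S → Prop} (hG : IsSchemes G) (hT : IsCohomology G T)
    (hA : HasAlterations G T Regular Nice) (hW : HasBlowUps G T W Nice) :
    TowersAndJacobians G T W Nice := by
  unfold TowersAndJacobians
  tfae_have 1 → 2 := fun h B hB i hi _ => h B hB i hi
  tfae_have 2 → 3 := fun h X n hn =>
    (niceSuffice hG hT hA n hn (G.dim X)).2 (fun Y hY _ => q1_of_towers hW h n hn Y hY) X le_rfl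
  tfae_have 3 → 1 := fun h B hB => towers_of_neg hW h hB
  tfae_have 3 → 4 := fun h J _ => h J (-1) (by norm_num)
  tfae_have 4 → 3 := fun h X n hn => by
    have h1 := (oneWeight hG hT (-1) (by norm_num)).2 h
    have key : ∀ k : ℕ, ∀ X, FiniteIn T (-1 - k) X := by
      intro k
      induction k with
      | zero =>
        intro X
        rw [Nat.cast_zero, sub_zero]
        exact h1 X
      | succ k ih =>
        intro X i
        obtain ⟨e⟩ := hT.line (-1 - k) (by omega) (i - 2) X
        have h3 : AddGroup.FG (T.H (-1 - k - 1) (i - 2 + 2) X) :=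
          fg_of_surjective (ih (G.line X) (i - 2)) e.toAddMonoidHom e.surjective
        have e1 : -1 - ((k + 1 : ℕ) : ℤ) = -1 - k - 1 := by push_cast; ring
        rw [sub_add_cancel] at h3
        rwa [e1]
    obtain ⟨k, rfl⟩ : ∃ k : ℕ, n = -1 - k := ⟨(-1 - n).toNat, by omega⟩
    exact key k X
  tfae_finish

end Pool.Agent.R900.FG
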